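import Pool.Agent.Helper71.FX.St

/-!
# Project FX, module AB: the abstract summation argument
-/

set_option autoImplicit false

open MeasureTheory Filter Topology

noncomputable section

namespace Pool.Agent.Helper67.FX

open Pool.Agent.Helper71.FX Wav

/-- the sum over the scales -/
private theorem tail (h : ℤ → ℝ) (B r : ℝ) (hr0 : 0 ≤ r) (hr1 : r < 1) (J i : ℕ) (hi : i < J)
    (h0 : ∀ j, 0 ≤ h j) (hB : ∀ j : ℤ, h j ≤ B * r ^ (j - i).natAbs) :
    Summable h ∧ ∑' j, h j ≤ ∑ j ∈ Finset.range J, h j +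
      B * (r ^ (i + 1) + r ^ (J - i)) / (1 - r) := by
  have hg := hasSum_geometric_of_lt_one hr0 hr1
  have g1 : HasSum (fun m : ℕ => B * r ^ (J - i) * r ^ m) (B * r ^ (J - i) * (1 - r)⁻¹) :=
    hg.mul_left _
  have g2 : HasSum (fun m : ℕ => B * r ^ (i + 1) * r ^ m) (B * r ^ (i + 1) * (1 - r)⁻¹) :=
    hg.mul_left _
  have b1 : ∀ m : ℕ, h ((m + J : ℕ) : ℤ) ≤ B * r ^ (J - i) * r ^ m := by
    intro m
    have e : (((m + J : ℕ) : ℤ) - i).natAbs = (J - i) + m := by omega
    have := hB ((m + J : ℕ) : ℤ)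
    rw [e, pow_add] at this
    linarith
  have b2 : ∀ m : ℕ, h (-((m : ℤ) + 1)) ≤ B * r ^ (i + 1) * r ^ m := by
    intro m
    have e : ((-((m : ℤ) + 1)) - i).natAbs = (i + 1) + m := by omega
    have := hB (-((m : ℤ) + 1))
    rw [e, pow_add] at this
    linarith
  have s1 : Summable (fun m : ℕ => h ((m + J : ℕ) : ℤ)) :=
    Summable.of_nonneg_of_le (fun m => h0 _) b1 g1.summable
  have s2 : Summable (fun m : ℕ => h (-((m : ℤ) + 1))) :=
    Summable.of_nonneg_of_le (fun m => h0 _) b2 g2.summable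
  have s3 : Summable (fun m : ℕ => h (m : ℤ)) :=
    (summable_nat_add_iff (f := fun m : ℕ => h (m : ℤ)) J).1 s1
  have t1 : ∑' m : ℕ, h ((m + J : ℕ) : ℤ) ≤ B * r ^ (J - i) * (1 - r)⁻¹ := by
    rw [← g1.tsum_eq]
    exact Summable.tsum_le_tsum b1 s1 g1.summable
  have t2 : ∑' m : ℕ, h (-((m : ℤ) + 1)) ≤ B * r ^ (i + 1) * (1 - r)⁻¹ := by
    rw [← g2.tsum_eq]
    exact Summable.tsum_le_tsum b2 s2 g2.summable
  refine ⟨Summable.of_nat_of_neg_add_one s3 s2, ?_⟩
  rw [tsum_of_nat_of_neg_add_one s3 s2, ← Summable.sum_add_tsum_nat_add J s3]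
  have e : B * (r ^ (i + 1) + r ^ (J - i)) / (1 - r) =
      B * r ^ (i + 1) * (1 - r)⁻¹ + B * r ^ (J - i) * (1 - r)⁻¹ := by
    rw [div_eq_mul_inv]; ring
  rw [e]
  linarith

/-- reordering of the indices -/
private def reo (L : ℕ) (K : Type) : ℤ × (Fin L × K) ≃ Fin L × ℤ × K where
  toFun x := (x.2.1, x.1, x.2.2)
  invFun y := (y.2.1, (y.1, y.2.2))
  left_inv _ := rfl
  right_inv _ := rfl

/-- the sum over the complement of a finite set, one index -/
private theorem single {n L : ℕ} {K : Type} (c : ℤ → K → E n) (D C r : ℝ)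
    (T : Fin L × ℤ × K → Fin L × ℤ × K → ℝ) (hC : 0 ≤ C) (hD : 0 < D) (hr0 : 0 ≤ r) (hr1 : r < 1)
    (hc : ∀ p (j : ℤ), Summable (fun mk : Fin L × K => |T p (mk.1, j, mk.2)|) ∧
      ∑' mk : Fin L × K, |T p (mk.1, j, mk.2)| ≤ C * D ^ (-p.2.1) * r ^ (j - p.2.1).natAbs)
    (J : ℕ) (R ρ ε : ℝ) (hε : 0 ≤ ε) (Λ : Finset (Fin L × ℤ × K)) [DecidableEq (Fin L × ℤ × K)]
    (hΛ : ∀ (l : Fin L) (i : ℕ) (k : K), (l, (i : ℤ), k) ∈ Λ ↔ i < J ∧ ‖c i k‖ ≤ R)
    (hd : ∀ i < J, ∀ j < J, ∀ (l : Fin L) (k : K),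
      ∑' mk : Fin L × K, (if ρ < ‖c (j : ℤ) mk.2 - c (i : ℤ) k‖ then
        |T (l, (i : ℤ), k) (mk.1, (j : ℤ), mk.2)| else 0) ≤ ε)
    (l : Fin L) (i : ℕ) (hi : i < J) (k : K) (a : ℝ)
    (ha : HasSum (fun q => T (l, (i : ℤ), k) q) a) :
    |a - ∑ q ∈ Λ, T (l, (i : ℤ), k) q| ≤ C * D ^ (-(i : ℤ)) * (r ^ (i + 1) + r ^ (J - i)) / (1 - r) +
      (if ‖c i k‖ ≤ R - ρ then J * ε else J * (C * D ^ (-(i : ℤ)))) := by
  classical
  set p : Fin L × ℤ × K := (l, (i : ℤ), k) with hp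
  have hDi : 0 < D ^ (-(i : ℤ)) := zpow_pos hD _
  set G : ℤ × (Fin L × K) → ℝ := fun x => if reo L K x ∈ Λ then 0 else |T p (reo L K x)| with hG
  have hG0 : ∀ x, 0 ≤ G x := by
    intro x; rw [hG]; dsimp only; split_ifs
    · exact le_rfl
    · exact abs_nonneg _
  have hGle : ∀ x, G x ≤ |T p (reo L K x)| := by
    intro x; rw [hG]; dsimp only; split_ifs
    · exact abs_nonneg _
    · exact le_rfl
  have hGs : ∀ j, Summable (fun mk : Fin L × K => G (j, mk)) := fun j =>
    Summable.of_nonneg_of_le (fun mk => hG0 _) (fun mk => hGle (j, mk)) (hc p j).1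
  set h : ℤ → ℝ := fun j => ∑' mk : Fin L × K, G (j, mk) with hh
  have h0 : ∀ j, 0 ≤ h j := fun j => tsum_nonneg fun mk => hG0 _
  have hB : ∀ j : ℤ, h j ≤ C * D ^ (-(i : ℤ)) * r ^ (j - i).natAbs := by
    intro j
    exact (Summable.tsum_le_tsum (fun mk => hGle (j, mk)) (hGs j) (hc p j).1).trans (hc p j).2
  obtain ⟨hsum, hle⟩ := tail h (C * D ^ (-(i : ℤ))) r hr0 hr1 J i hi h0 hB
  have hGsum : Summable G := (summable_prod_of_nonneg (fun x => hG0 x)).2 ⟨hGs, hsum⟩
  have htot : ∑' x, G x = ∑' j, h j := Summable.tsum_prod' hGsum hGs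
  -- the rest of the sum
  have hrest : HasSum (fun q => if q ∈ Λ then 0 else T p q) (a - ∑ q ∈ Λ, T p q) := by
    have h1 : HasSum (fun q => if q ∈ Λ then T p q else 0) (∑ q ∈ Λ, T p q) := by
      have h2 : HasSum (fun q => if q ∈ Λ then T p q else 0)
          (∑ q ∈ Λ, if q ∈ Λ then T p q else 0) :=
        hasSum_sum_of_ne_finset_zero (fun q hq => by simp [hq])
      have h3 : ∑ q ∈ Λ, (if q ∈ Λ then T p q else 0) = ∑ q ∈ Λ, T p q :=
        Finset.sum_congr rfl fun q hq => by simp [hq]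
      rwa [h3] at h2
    have h4 := ha.sub h1
    have h5 : (fun q => if q ∈ Λ then 0 else T p q) =
        fun q => T p q - (if q ∈ Λ then T p q else 0) := by
      funext q
      by_cases hq : q ∈ Λ <;> simp [hq]
    rw [h5]
    exact h4
  have hGP : Summable (fun q => if q ∈ Λ then (0 : ℝ) else |T p q|) := by
    have := (Equiv.summable_iff (reo L K) (f := fun q => if q ∈ Λ then (0 : ℝ) else |T p q|)).1 hGsum
    exact this
  have habs : ∀ q, |(if q ∈ Λ then 0 else T p q)| = if q ∈ Λ then (0 : ℝ) else |T p q| := by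
    intro q; split_ifs <;> simp
  have hb : |a - ∑ q ∈ Λ, T p q| ≤ ∑' q, if q ∈ Λ then (0 : ℝ) else |T p q| := by
    rw [← hrest.tsum_eq]
    have hs : Summable fun q => |(if q ∈ Λ then 0 else T p q)| := by
      simpa only [habs] using hGP
    have := norm_tsum_le_tsum_norm (f := fun q => if q ∈ Λ then 0 else T p q)
      (by simpa only [Real.norm_eq_abs] using hs)
    simpa only [Real.norm_eq_abs, habs] using this
  have hre : ∑' q, (if q ∈ Λ then (0 : ℝ) else |T p q|) = ∑' x, G x :=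
    ((reo L K).tsum_eq (fun q => if q ∈ Λ then (0 : ℝ) else |T p q|)).symm
  rw [hre, htot] at hb
  refine hb.trans (hle.trans ?_)
  have hfin : ∑ j ∈ Finset.range J, h j ≤
      (if ‖c i k‖ ≤ R - ρ then J * ε else J * (C * D ^ (-(i : ℤ)))) := by
    split_ifs with hk
    · have : ∀ j ∈ Finset.range J, h j ≤ ε := by
        intro j hj
        have hjJ := Finset.mem_range.1 hj
        refine le_trans ?_ (hd i hi j hjJ l k)
        have hs2 : Summable (fun mk : Fin L × K => if ρ < ‖c (j : ℤ) mk.2 - c (i : ℤ) k‖ then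
            |T (l, (i : ℤ), k) (mk.1, (j : ℤ), mk.2)| else 0) := by
          refine Summable.of_nonneg_of_le (fun mk => ?_) (fun mk => ?_) (hc p j).1
          · split_ifs
            · exact abs_nonneg _
            · exact le_rfl
          · split_ifs
            · exact le_rfl
            · exact abs_nonneg _
        refine Summable.tsum_le_tsum (fun mk => ?_) (hGs j) hs2
        rw [hG]
        dsimp only
        by_cases hmem : reo L K ((j : ℤ), mk) ∈ Λ
        · rw [if_pos hmem]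
          split_ifs
          · exact abs_nonneg _
          · exact le_rfl
        · rw [if_neg hmem]
          have h5 : ¬ ‖c (j : ℤ) mk.2‖ ≤ R := fun h6 => hmem ((hΛ mk.1 j mk.2).2 ⟨hjJ, h6⟩)
          have h7 : ρ < ‖c (j : ℤ) mk.2 - c (i : ℤ) k‖ := by
            have h8 := norm_sub_norm_le (c (j : ℤ) mk.2) (c (i : ℤ) k)
            push Not at h5
            linarith
          rw [if_pos h7]
          exact le_rfl
      calc ∑ j ∈ Finset.range J, h j ≤ ∑ j ∈ Finset.range J, ε := Finset.sum_le_sum this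
        _ = J * ε := by simp
    · have : ∀ j ∈ Finset.range J, h j ≤ C * D ^ (-(i : ℤ)) := by
        intro j _
        refine (hB j).trans ?_
        have : r ^ ((j : ℤ) - i).natAbs ≤ 1 := pow_le_one₀ hr0 hr1.le
        have h9 : 0 ≤ C * D ^ (-(i : ℤ)) := by positivity
        nlinarith
      calc ∑ j ∈ Finset.range J, h j ≤ ∑ j ∈ Finset.range J, (C * D ^ (-(i : ℤ))) :=
            Finset.sum_le_sum this
        _ = J * (C * D ^ (-(i : ℤ))) := by simp
  linarith

/-- ratio of shifted counts -/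
private theorem shift_lim {n : ℕ} {f : ℕ → ℝ} {V : ℝ} (ρ : ℕ)
    (hf : Tendsto (fun R : ℕ => f R / (R : ℝ) ^ n) atTop (𝓝 V)) :
    Tendsto (fun R : ℕ => f (R - ρ) / (R : ℝ) ^ n) atTop (𝓝 V) := by
  have h1 : Tendsto (fun R : ℕ => R - ρ) atTop atTop := tendsto_sub_atTop_nat ρ
  have h2 := hf.comp h1
  have h3 : Tendsto (fun R : ℕ => ((R - ρ : ℕ) : ℝ) / (R : ℝ)) atTop (𝓝 1) := by
    have h4 : Tendsto (fun R : ℕ => 1 - (ρ : ℝ) / (R : ℝ)) atTop (𝓝 (1 - 0)) :=
      tendsto_const_nhds.sub (tendsto_const_div_atTop_nhds_zero_nat (ρ : ℝ))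
    rw [sub_zero] at h4
    refine h4.congr' ?_
    filter_upwards [eventually_ge_atTop (ρ + 1)] with R hR
    have : (0 : ℝ) < R := by exact_mod_cast (by omega : 0 < R)
    rw [Nat.cast_sub (by omega)]
    field_simp
  have h5 := h2.mul (h3.pow n)
  rw [one_pow, mul_one] at h5
  refine h5.congr' ?_
  filter_upwards [eventually_ge_atTop (ρ + 1)] with R hR
  have a1 : (0 : ℝ) < R := by exact_mod_cast (by omega : 0 < R)
  have a2 : (0 : ℝ) < ((R - ρ : ℕ) : ℝ) := by exact_mod_cast (by omega : 0 < R - ρ)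
  simp only [Function.comp_apply]
  rw [div_pow]
  field_simp

private theorem geo_le (r : ℝ) (hr0 : 0 ≤ r) (hr1 : r < 1) (J : ℕ) :
    ∑ i ∈ Finset.range J, (r ^ (i + 1) + r ^ (J - i)) ≤ 2 / (1 - r) := by
  have h1 : ∑ i ∈ Finset.range J, r ^ (J - i) = ∑ i ∈ Finset.range J, r ^ (i + 1) := by
    rw [← Finset.sum_range_reflect]
    refine Finset.sum_congr rfl fun i hi => ?_
    have := Finset.mem_range.1 hi
    congr 1
    omega
  have h2 : ∑ i ∈ Finset.range J, r ^ (i + 1) ≤ 1 / (1 - r) := by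
    have h3 : ∑ i ∈ Finset.range J, r ^ (i + 1) ≤ ∑ i ∈ Finset.range J, r ^ i := by
      refine Finset.sum_le_sum fun i _ => ?_
      rw [pow_succ]
      have : 0 ≤ r ^ i := by positivity
      nlinarith
    have h4 : ∑ i ∈ Finset.range J, r ^ i ≤ (1 - r)⁻¹ := by
      rw [← tsum_geometric_of_lt_one hr0 hr1]
      exact (summable_geometric_of_lt_one hr0 hr1).sum_le_tsum _ (fun i _ => by positivity)
    rw [one_div]
    linarith
  rw [Finset.sum_add_distrib, h1]
  have : (2 : ℝ) / (1 - r) = 1 / (1 - r) + 1 / (1 - r) := by ring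
  rw [this]
  linarith

theorem pAB : StAB := by
  classical
  intro n L K c D V τ C r T hL hD hV hC hr0 hr1 hfin hcnt hanti hsum hc hd
  have hL' : (0 : ℝ) < L := by exact_mod_cast hL
  have h1r : 0 < 1 - r := by linarith
  -- the finite sets
  set KF : ℕ → ℕ → Finset K := fun i R => (hfin (i : ℤ) (R : ℝ)).toFinset with hKF
  have hKFm : ∀ i R k, k ∈ KF i R ↔ ‖c (i : ℤ) k‖ ≤ (R : ℝ) := by
    intro i R k
    rw [hKF]
    simp
  have hcard : ∀ i R : ℕ, (Nat.card {k : K // ‖c (i : ℤ) k‖ ≤ (R : ℝ)} : ℝ) = (KF i R).card := by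
    intro i R
    have h1 : Nat.card {k : K // ‖c (i : ℤ) k‖ ≤ (R : ℝ)} = (KF i R).card := by
      rw [hKF]
      exact (Nat.card_coe_set_eq {k : K | ‖c (i : ℤ) k‖ ≤ (R : ℝ)}).trans
        (Set.ncard_eq_toFinset_card _ (hfin (i : ℤ) (R : ℝ)))
    rw [h1]
  -- the estimate for fixed `J`, `ε`
  have main : ∀ (J : ℕ) (ε : ℝ), 0 < ε →
      |τ| * J ≤ C * (2 / (1 - r)) / (1 - r) + ε * (J * ∑ i ∈ Finset.range J, D ^ (i : ℤ)) := by
    intro J ε hε
    choose ρf hρ0 hρ1 using fun i j : ℤ => hd i j ε hε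
    set ρ : ℕ := ⌈∑ i ∈ Finset.range J, ∑ j ∈ Finset.range J, ρf i j⌉₊ with hρ
    have hρle : ∀ i < J, ∀ j < J, ρf i j ≤ (ρ : ℝ) := by
      intro i hi j hj
      refine le_trans ?_ (Nat.le_ceil _)
      refine le_trans ?_ (Finset.single_le_sum (f := fun i : ℕ =>
        ∑ j ∈ Finset.range J, ρf (i : ℤ) (j : ℤ))
        (fun i _ => Finset.sum_nonneg fun j _ => (hρ0 _ _).le) (Finset.mem_range.2 hi))
      exact Finset.single_le_sum (f := fun j : ℕ => ρf (i : ℤ) (j : ℤ))
        (fun j _ => (hρ0 _ _).le) (Finset.mem_range.2 hj)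
    have hd' : ∀ i < J, ∀ j < J, ∀ (l : Fin L) (k : K),
        ∑' mk : Fin L × K, (if (ρ : ℝ) < ‖c (j : ℤ) mk.2 - c (i : ℤ) k‖ then
          |T (l, (i : ℤ), k) (mk.1, (j : ℤ), mk.2)| else 0) ≤ ε := by
      intro i hi j hj l k
      refine le_trans ?_ (hρ1 i j l k)
      have hs : ∀ x : ℝ, Summable (fun mk : Fin L × K => if x < ‖c (j : ℤ) mk.2 - c (i : ℤ) k‖ then
            |T (l, (i : ℤ), k) (mk.1, (j : ℤ), mk.2)| else 0) := by
        intro x
        refine Summable.of_nonneg_of_le (fun mk => ?_) (fun mk => ?_) (hc (l, (i : ℤ), k) j).1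
        · split_ifs
          · exact abs_nonneg _
          · exact le_rfl
        · split_ifs
          · exact le_rfl
          · exact abs_nonneg _
      refine Summable.tsum_le_tsum (fun mk => ?_) (hs _) (hs _)
      by_cases h1 : (ρ : ℝ) < ‖c (j : ℤ) mk.2 - c (i : ℤ) k‖
      · rw [if_pos h1, if_pos (lt_of_le_of_lt (hρle i hi j hj) h1)]
      · rw [if_neg h1]
        split_ifs
        · exact abs_nonneg _
        · exact le_rfl
    -- the estimate for fixed `R`
    have step : ∀ R : ℕ, ρ ≤ R →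
        |τ| * ∑ i ∈ Finset.range J, D ^ (-(i : ℤ)) * ((KF i R).card : ℝ) ≤
        ∑ i ∈ Finset.range J, (((KF i R).card : ℝ) *
          (C * D ^ (-(i : ℤ)) * (r ^ (i + 1) + r ^ (J - i)) / (1 - r)) +
          (((KF i (R - ρ)).card : ℝ) * (J * ε) +
            (((KF i R).card : ℝ) - ((KF i (R - ρ)).card : ℝ)) * (J * (C * D ^ (-(i : ℤ)))))) := by
      intro R hR
      set emb : (Σ _ : Fin L × ℕ, K) ↪ Fin L × ℤ × K :=
        ⟨fun x => (x.1.1, (x.1.2 : ℤ), x.2), by
          rintro ⟨⟨l, i⟩, k⟩ ⟨⟨l', i'⟩, k'⟩ h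
          simp only [Prod.mk.injEq, Nat.cast_inj] at h
          obtain ⟨h1, h2, h3⟩ := h
          subst h1 h2 h3
          rfl⟩ with hemb
      set Λ : Finset (Fin L × ℤ × K) :=
        (((Finset.univ : Finset (Fin L)) ×ˢ Finset.range J).sigma fun li => KF li.2 R).map emb
        with hΛdef
      have hΛsum : ∀ F : Fin L × ℤ × K → ℝ, ∑ p ∈ Λ, F p =
          ∑ l : Fin L, ∑ i ∈ Finset.range J, ∑ k ∈ KF i R, F (l, (i : ℤ), k) := by
        intro F
        rw [hΛdef, Finset.sum_map, Finset.sum_sigma, Finset.sum_product]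
        rfl
      have hΛ : ∀ (l : Fin L) (i : ℕ) (k : K),
          (l, (i : ℤ), k) ∈ Λ ↔ i < J ∧ ‖c i k‖ ≤ (R : ℝ) := by
        intro l i k
        rw [hΛdef, Finset.mem_map]
        constructor
        · rintro ⟨⟨⟨l', i'⟩, k'⟩, h1, h2⟩
          simp only [Finset.mem_sigma, Finset.mem_product, Finset.mem_univ, true_and,
            Finset.mem_range, hKFm] at h1
          have h3 : l' = l ∧ (i' : ℤ) = i ∧ k' = k := by
            have := h2
            rw [hemb] at this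
            simpa using this
          obtain ⟨h4, h5, h6⟩ := h3
          have h5' : i' = i := by exact_mod_cast h5
          subst h4 h5' h6
          exact h1
        · rintro ⟨h1, h2⟩
          refine ⟨⟨(l, i), k⟩, ?_, rfl⟩
          simp only [Finset.mem_sigma, Finset.mem_product, Finset.mem_univ, true_and,
            Finset.mem_range, hKFm]
          exact ⟨h1, h2⟩
      -- antisymmetry
      have hzero : ∑ p ∈ Λ, ∑ q ∈ Λ, T p q = 0 := by
        have h1 : ∑ p ∈ Λ, ∑ q ∈ Λ, T p q = -∑ p ∈ Λ, ∑ q ∈ Λ, T p q := by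
          conv_lhs => rw [Finset.sum_comm]
          rw [← Finset.sum_neg_distrib]
          refine Finset.sum_congr rfl fun p _ => ?_
          rw [← Finset.sum_neg_distrib]
          exact Finset.sum_congr rfl fun q _ => hanti q p
        linarith
      have e1 : ∑ p ∈ Λ, τ * D ^ (-p.2.1) =
          ∑ p ∈ Λ, (τ * D ^ (-p.2.1) - ∑ q ∈ Λ, T p q) := by
        rw [Finset.sum_sub_distrib, hzero, sub_zero]
      have e2 : ∑ p ∈ Λ, τ * D ^ (-p.2.1) =
          L * (τ * ∑ i ∈ Finset.range J, D ^ (-(i : ℤ)) * ((KF i R).card : ℝ)) := by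
        rw [hΛsum]
        have : ∀ i ∈ Finset.range J, ∑ k ∈ KF i R, τ * D ^ (-(i : ℤ)) =
            τ * (D ^ (-(i : ℤ)) * ((KF i R).card : ℝ)) := by
          intro i _
          rw [Finset.sum_const, nsmul_eq_mul]; ring
        have h2 : ∀ l : Fin L, ∑ i ∈ Finset.range J, ∑ k ∈ KF i R,
            τ * D ^ (-(l, (i : ℤ), k).2.1) =
            τ * ∑ i ∈ Finset.range J, D ^ (-(i : ℤ)) * ((KF i R).card : ℝ) := by
          intro l
          rw [Finset.mul_sum]
          exact Finset.sum_congr rfl this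
        rw [Finset.sum_congr rfl fun l _ => h2 l, Finset.sum_const, Finset.card_univ,
          Fintype.card_fin, nsmul_eq_mul]
      have e3 : |∑ p ∈ Λ, (τ * D ^ (-p.2.1) - ∑ q ∈ Λ, T p q)| ≤
          ∑ p ∈ Λ, |τ * D ^ (-p.2.1) - ∑ q ∈ Λ, T p q| := Finset.abs_sum_le_sum_abs _ _
      have e4 : ∑ p ∈ Λ, |τ * D ^ (-p.2.1) - ∑ q ∈ Λ, T p q| ≤
          L * ∑ i ∈ Finset.range J, (((KF i R).card : ℝ) *
          (C * D ^ (-(i : ℤ)) * (r ^ (i + 1) + r ^ (J - i)) / (1 - r)) +
          (((KF i (R - ρ)).card : ℝ) * (J * ε) +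
            (((KF i R).card : ℝ) - ((KF i (R - ρ)).card : ℝ)) * (J * (C * D ^ (-(i : ℤ)))))) := by
        rw [hΛsum]
        have h1 : ∀ l : Fin L, ∑ i ∈ Finset.range J, ∑ k ∈ KF i R,
            |τ * D ^ (-(l, (i : ℤ), k).2.1) - ∑ q ∈ Λ, T (l, (i : ℤ), k) q| ≤
            ∑ i ∈ Finset.range J, (((KF i R).card : ℝ) *
          (C * D ^ (-(i : ℤ)) * (r ^ (i + 1) + r ^ (J - i)) / (1 - r)) +
          (((KF i (R - ρ)).card : ℝ) * (J * ε) +
            (((KF i R).card : ℝ) - ((KF i (R - ρ)).card : ℝ)) * (J * (C * D ^ (-(i : ℤ)))))) := by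
          intro l
          refine Finset.sum_le_sum fun i hi => ?_
          have hiJ := Finset.mem_range.1 hi
          have h2 : ∀ k ∈ KF i R,
              |τ * D ^ (-(l, (i : ℤ), k).2.1) - ∑ q ∈ Λ, T (l, (i : ℤ), k) q| ≤
              C * D ^ (-(i : ℤ)) * (r ^ (i + 1) + r ^ (J - i)) / (1 - r) +
              (if ‖c i k‖ ≤ (R : ℝ) - ρ then J * ε else J * (C * D ^ (-(i : ℤ)))) := by
            intro k _
            exact single c D C r T hC hD hr0 hr1 hc J R ρ ε hε.le Λ hΛ hd' l i hiJ k _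
              (hsum (l, (i : ℤ), k))
          refine (Finset.sum_le_sum h2).trans ?_
          rw [Finset.sum_add_distrib, Finset.sum_const, nsmul_eq_mul]
          have h3 : ∑ k ∈ KF i R, (if ‖c i k‖ ≤ (R : ℝ) - ρ then (J : ℝ) * ε
              else J * (C * D ^ (-(i : ℤ)))) =
              ((KF i (R - ρ)).card : ℝ) * (J * ε) +
            (((KF i R).card : ℝ) - ((KF i (R - ρ)).card : ℝ)) * (J * (C * D ^ (-(i : ℤ)))) := by
            have hcast : ((R - ρ : ℕ) : ℝ) = (R : ℝ) - ρ := Nat.cast_sub hR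
            rw [Finset.sum_ite, Finset.sum_const, Finset.sum_const, nsmul_eq_mul, nsmul_eq_mul]
            have h4 : (KF i R).filter (fun k => ‖c i k‖ ≤ (R : ℝ) - ρ) = KF i (R - ρ) := by
              ext k
              rw [Finset.mem_filter, hKFm, hKFm, hcast]
              constructor
              · exact fun h => h.2
              · intro h
                refine ⟨?_, h⟩
                have : (0 : ℝ) ≤ ρ := Nat.cast_nonneg _
                linarith
            have h5 := Finset.card_filter_add_card_filter_not (s := KF i R)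
              (fun k => ‖c i k‖ ≤ (R : ℝ) - ρ)
            rw [h4] at h5
            rw [h4]
            have h6 : ((KF i (R - ρ)).card : ℝ) +
                (((KF i R).filter (fun k => ¬ ‖c i k‖ ≤ (R : ℝ) - ρ)).card : ℝ) =
                ((KF i R).card : ℝ) := by exact_mod_cast h5
            rw [← h6]
            ring
          rw [h3]
        calc _ ≤ ∑ _l : Fin L, ∑ i ∈ Finset.range J, (((KF i R).card : ℝ) *
          (C * D ^ (-(i : ℤ)) * (r ^ (i + 1) + r ^ (J - i)) / (1 - r)) +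
          (((KF i (R - ρ)).card : ℝ) * (J * ε) +
            (((KF i R).card : ℝ) - ((KF i (R - ρ)).card : ℝ)) * (J * (C * D ^ (-(i : ℤ)))))) :=
              Finset.sum_le_sum fun l _ => h1 l
          _ = _ := by
            rw [Finset.sum_const, Finset.card_univ, Fintype.card_fin, nsmul_eq_mul]
      have e5 : (L : ℝ) * (|τ| * ∑ i ∈ Finset.range J, D ^ (-(i : ℤ)) * ((KF i R).card : ℝ)) =
          |∑ p ∈ Λ, τ * D ^ (-p.2.1)| := by
        rw [e2, abs_mul, abs_mul, abs_of_pos hL']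
        have : 0 ≤ ∑ i ∈ Finset.range J, D ^ (-(i : ℤ)) * ((KF i R).card : ℝ) :=
          Finset.sum_nonneg fun i _ => mul_nonneg (zpow_nonneg hD.le _) (Nat.cast_nonneg _)
        rw [abs_of_nonneg this]
      rw [e1] at e5
      have e6 := e5.le.trans (e3.trans e4)
      exact le_of_mul_le_mul_left e6 hL'
    -- the limit
    have lim : ∀ i : ℕ, Tendsto (fun R : ℕ => ((KF i R).card : ℝ) / (R : ℝ) ^ n) atTop
        (𝓝 (D ^ (i : ℤ) * V)) := by
      intro i
      have := hcnt (i : ℤ)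
      refine this.congr fun R => ?_
      rw [hcard]
    have lim2 : ∀ i : ℕ, Tendsto (fun R : ℕ => ((KF i (R - ρ)).card : ℝ) / (R : ℝ) ^ n) atTop
        (𝓝 (D ^ (i : ℤ) * V)) := fun i => shift_lim (f := fun R => ((KF i R).card : ℝ)) ρ (lim i)
    have l1 : Tendsto (fun R : ℕ => |τ| * ∑ i ∈ Finset.range J,
        D ^ (-(i : ℤ)) * (((KF i R).card : ℝ) / (R : ℝ) ^ n)) atTop
        (𝓝 (|τ| * ∑ i ∈ Finset.range J, D ^ (-(i : ℤ)) * (D ^ (i : ℤ) * V))) :=
      (tendsto_finsetSum _ fun i _ => (lim i).const_mul _).const_mul _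
    have l2 : Tendsto (fun R : ℕ => ∑ i ∈ Finset.range J,
        ((((KF i R).card : ℝ) / (R : ℝ) ^ n) *
          (C * D ^ (-(i : ℤ)) * (r ^ (i + 1) + r ^ (J - i)) / (1 - r)) +
          ((((KF i (R - ρ)).card : ℝ) / (R : ℝ) ^ n) * (J * ε) +
            ((((KF i R).card : ℝ) / (R : ℝ) ^ n) - (((KF i (R - ρ)).card : ℝ) / (R : ℝ) ^ n)) *
              (J * (C * D ^ (-(i : ℤ))))))) atTop
        (𝓝 (∑ i ∈ Finset.range J, ((D ^ (i : ℤ) * V) *
          (C * D ^ (-(i : ℤ)) * (r ^ (i + 1) + r ^ (J - i)) / (1 - r)) +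
          ((D ^ (i : ℤ) * V) * (J * ε) + ((D ^ (i : ℤ) * V) - (D ^ (i : ℤ) * V)) *
              (J * (C * D ^ (-(i : ℤ)))))))) := by
      refine tendsto_finsetSum _ fun i _ => ?_
      exact ((lim i).mul_const _).add (((lim2 i).mul_const _).add
        (((lim i).sub (lim2 i)).mul_const _))
    have l3 := le_of_tendsto_of_tendsto l1 l2 (by
      filter_upwards [eventually_ge_atTop (max ρ 1)] with R hR
      have hR1 : (0 : ℝ) < (R : ℝ) ^ n := by
        have : (0 : ℝ) < R := by exact_mod_cast (lt_of_lt_of_le Nat.one_pos ((le_max_right _ _).trans hR))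
        positivity
      have := step R ((le_max_left _ _).trans hR)
      have h2 : |τ| * ∑ i ∈ Finset.range J, D ^ (-(i : ℤ)) * (((KF i R).card : ℝ) / (R : ℝ) ^ n) =
          (|τ| * ∑ i ∈ Finset.range J, D ^ (-(i : ℤ)) * ((KF i R).card : ℝ)) / (R : ℝ) ^ n := by
        rw [mul_div_assoc, Finset.sum_div]
        congr 1
        exact Finset.sum_congr rfl fun i _ => by ring
      have h3 : ∑ i ∈ Finset.range J,
        ((((KF i R).card : ℝ) / (R : ℝ) ^ n) *
          (C * D ^ (-(i : ℤ)) * (r ^ (i + 1) + r ^ (J - i)) / (1 - r)) +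
          ((((KF i (R - ρ)).card : ℝ) / (R : ℝ) ^ n) * (J * ε) +
            ((((KF i R).card : ℝ) / (R : ℝ) ^ n) - (((KF i (R - ρ)).card : ℝ) / (R : ℝ) ^ n)) *
              (J * (C * D ^ (-(i : ℤ)))))) =
          (∑ i ∈ Finset.range J, (((KF i R).card : ℝ) *
          (C * D ^ (-(i : ℤ)) * (r ^ (i + 1) + r ^ (J - i)) / (1 - r)) +
          (((KF i (R - ρ)).card : ℝ) * (J * ε) +
            (((KF i R).card : ℝ) - ((KF i (R - ρ)).card : ℝ)) *
              (J * (C * D ^ (-(i : ℤ))))))) / (R : ℝ) ^ n := by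
        rw [Finset.sum_div]
        exact Finset.sum_congr rfl fun i _ => by ring
      rw [h2, h3]
      exact div_le_div_of_nonneg_right this hR1.le)
    have hDD : ∀ i : ℕ, D ^ (-(i : ℤ)) * D ^ (i : ℤ) = 1 := by
      intro i
      rw [← zpow_add₀ hD.ne']
      simp
    have l4 : ∑ i ∈ Finset.range J, D ^ (-(i : ℤ)) * (D ^ (i : ℤ) * V) = J * V := by
      have : ∀ i ∈ Finset.range J, D ^ (-(i : ℤ)) * (D ^ (i : ℤ) * V) = V := by
        intro i _
        rw [← mul_assoc, hDD, one_mul]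
      rw [Finset.sum_congr rfl this, Finset.sum_const, Finset.card_range, nsmul_eq_mul]
    have l5 : ∑ i ∈ Finset.range J, ((D ^ (i : ℤ) * V) *
          (C * D ^ (-(i : ℤ)) * (r ^ (i + 1) + r ^ (J - i)) / (1 - r)) +
          ((D ^ (i : ℤ) * V) * (J * ε) + ((D ^ (i : ℤ) * V) - (D ^ (i : ℤ) * V)) *
              (J * (C * D ^ (-(i : ℤ)))))) =
          V * (C * (∑ i ∈ Finset.range J, (r ^ (i + 1) + r ^ (J - i))) / (1 - r) +
            ε * (J * ∑ i ∈ Finset.range J, D ^ (i : ℤ))) := by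
      have : ∀ i ∈ Finset.range J, ((D ^ (i : ℤ) * V) *
          (C * D ^ (-(i : ℤ)) * (r ^ (i + 1) + r ^ (J - i)) / (1 - r)) +
          ((D ^ (i : ℤ) * V) * (J * ε) + ((D ^ (i : ℤ) * V) - (D ^ (i : ℤ) * V)) *
              (J * (C * D ^ (-(i : ℤ)))))) =
          V * (C / (1 - r) * (r ^ (i + 1) + r ^ (J - i)) + ε * J * D ^ (i : ℤ)) := by
        intro i _
        have h := hDD i
        calc _ = (D ^ (-(i : ℤ)) * D ^ (i : ℤ)) * (V * (C / (1 - r) *
              (r ^ (i + 1) + r ^ (J - i)))) + V * (ε * J * D ^ (i : ℤ)) := by ring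
          _ = _ := by rw [h]; ring
      rw [Finset.sum_congr rfl this, ← Finset.mul_sum, Finset.sum_add_distrib, ← Finset.mul_sum,
        ← Finset.mul_sum]
      ring
    rw [l4, l5] at l3
    have l6 := geo_le r hr0 hr1 J
    have l7 : C * (∑ i ∈ Finset.range J, (r ^ (i + 1) + r ^ (J - i))) / (1 - r) ≤
        C * (2 / (1 - r)) / (1 - r) := by
      refine div_le_div_of_nonneg_right ?_ h1r.le
      exact mul_le_mul_of_nonneg_left l6 hC
    have l8 : V * (|τ| * J) ≤ V * (C * (2 / (1 - r)) / (1 - r) +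
        ε * (J * ∑ i ∈ Finset.range J, D ^ (i : ℤ))) := by
      calc V * (|τ| * J) = |τ| * (J * V) := by ring
        _ ≤ _ := l3
        _ ≤ _ := mul_le_mul_of_nonneg_left (by linarith) hV.le
    exact le_of_mul_le_mul_left l8 hV
  -- `ε → 0`
  have m2 : ∀ J : ℕ, |τ| * J ≤ C * (2 / (1 - r)) / (1 - r) := by
    intro J
    have h1 : Tendsto (fun ε : ℝ => C * (2 / (1 - r)) / (1 - r) +
        ε * (J * ∑ i ∈ Finset.range J, D ^ (i : ℤ))) (𝓝[>] 0)
        (𝓝 (C * (2 / (1 - r)) / (1 - r) + 0 * (J * ∑ i ∈ Finset.range J, D ^ (i : ℤ)))) := by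
      refine Tendsto.mono_left ?_ nhdsWithin_le_nhds
      exact tendsto_const_nhds.add (tendsto_id.mul_const _)
    rw [zero_mul, add_zero] at h1
    refine ge_of_tendsto h1 ?_
    filter_upwards [self_mem_nhdsWithin] with ε hε
    exact main J ε hε
  by_contra hτ
  have hτ' : 0 < |τ| := abs_pos.2 hτ
  obtain ⟨J, hJ⟩ := exists_nat_gt (C * (2 / (1 - r)) / (1 - r) / |τ|)
  have h1 := m2 J
  rw [div_lt_iff₀ hτ'] at hJ
  linarith

end Pool.Agent.Helper67.FX
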