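import Pool.Agent.Helper84.FX.StT

set_option autoImplicit false

namespace Pool.Agent.Helper67.FX

open Pool.Agent.Helper84.FX Set

/-- CN2.  If `g` and `g ∘ f` are weak equivalences, so is `f`. -/
theorem hCN2 : StINJ → StCN2 := by
  intro hI E F G _ _ _ X Y Z f g hf hg hgf
  refine ⟨hf, ?_⟩
  intro n a b ha hb hab
  have hsub : ∀ u ∈ Bd n, u ∈ Cb n := fun u hu => hu.1
  -- the lifting problem for the composite
  obtain ⟨c, H, hc, hca, hH, hH0, hH1, hHs⟩ := hgf.2 n a (g ∘ b) ha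
    ⟨hg.1.1.comp hb.1 hb.2, hg.1.2.comp hb.2⟩
    (fun u hu => by
      show g (b u) = g (f (a u))
      rw [hab u hu])
  -- injectivity for g
  obtain ⟨L, hL, hL0, hL1, hLs⟩ := hI F G Y Z g hg n b (f ∘ c) H hb
    ⟨hf.1.comp hc.1 hc.2, hf.2.comp hc.2⟩
    (fun u hu => by
      show b u = f (c u)
      rw [hab u hu, hca u hu])
    hH (fun u hu => hH0 u hu) (fun u hu => hH1 u hu)
    (fun s hs u hu => by
      rw [hHs s hs u hu]
      rfl)
  exact ⟨c, L, hc, hca, hL, hL0, hL1, fun s hs u hu => hLs s hs u hu⟩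

end Pool.Agent.Helper67.FX
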